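import Mathlib

/-!
# Integers with a unique minimal `m`-Markoff triple: `U(x) = O(x / log x)`

If `m` has exactly one minimal `m`-Markoff triple, then `m = 3a³ + 3a²` for some `a`, or `m` has exactly
one representation as a sum of two positive squares. In the second case the squarefree part of `m` is
`1`, `2`, a prime, or twice a prime. Chebyshev's upper bound gives the estimate.
-/

set_option autoImplicit false

open Filter Asymptotics

namespace Pool.Agent.Results.MP_3400ab_nt.UpperBoundForU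

/-- `(a, b, c)` is a minimal `m`-Markoff triple: positive integers `a ≤ b ≤ c` with
`a² + b² + c² = 3abc + m` and `c ≥ 3ab`. -/
def IsMinimalTriple (m : ℕ) (t : ℕ × ℕ × ℕ) : Prop :=
  0 < t.1 ∧ t.1 ≤ t.2.1 ∧ t.2.1 ≤ t.2.2 ∧
    t.1 ^ 2 + t.2.1 ^ 2 + t.2.2 ^ 2 = 3 * t.1 * t.2.1 * t.2.2 + m ∧ 3 * t.1 * t.2.1 ≤ t.2.2

/-- The set `O(m)` of minimal `m`-Markoff triples. -/
def minimalTriples (m : ℕ) : Set (ℕ × ℕ × ℕ) := {t | IsMinimalTriple m t}

/-- The set `U` of integers `m > 1` with exactly one minimal `m`-Markoff triple. -/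
def U : Set ℕ := {m | 1 < m ∧ (minimalTriples m).ncard = 1}

/-! ### The structure of the members of `U` -/

theorem mem_sq {m a b : ℕ} (ha : 0 < a) (hab : a ≤ b) (h : m = a ^ 2 + b ^ 2) :
    (a, b, 3 * a * b) ∈ minimalTriples m := by
  refine ⟨ha, hab, ?_, ?_, le_refl _⟩
  · show b ≤ 3 * a * b
    have : 1 ≤ 3 * a := by omega
    nlinarith
  · show a ^ 2 + b ^ 2 + (3 * a * b) ^ 2 = 3 * a * b * (3 * a * b) + m
    rw [h]; ring

theorem mem_gen {m a b d : ℕ} (ha : 0 < a) (hab : a ≤ b) 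
    (h : m = a ^ 2 + b ^ 2 + d ^ 2 + 3 * a * b * d) :
    (a, b, 3 * a * b + d) ∈ minimalTriples m := by
  refine ⟨ha, hab, ?_, ?_, Nat.le_add_right _ _⟩
  · show b ≤ 3 * a * b + d
    have : 1 ≤ 3 * a := by omega
    nlinarith
  · show a ^ 2 + b ^ 2 + (3 * a * b + d) ^ 2 = 3 * a * b * (3 * a * b + d) + m
    rw [h]; ring

/-- The dichotomy for the members of `U`. -/
theorem structure_of_mem {m : ℕ} (hm : m ∈ U) :
    (∃ a : ℕ, 0 < a ∧ m = 3 * a ^ 3 + 3 * a ^ 2) ∨
    (∃ a b : ℕ, 0 < a ∧ 0 < b ∧ m = a ^ 2 + b ^ 2 ∧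
      ∀ a' b' : ℕ, 0 < a' → 0 < b' → m = a' ^ 2 + b' ^ 2 →
        (a' = a ∧ b' = b) ∨ (a' = b ∧ b' = a)) := by
  obtain ⟨-, h1⟩ := hm
  rw [Set.ncard_eq_one] at h1
  obtain ⟨⟨a, b, c⟩, hO⟩ := h1
  have hmem : (a, b, c) ∈ minimalTriples m := by rw [hO]; rfl
  have huniq : ∀ t ∈ minimalTriples m, t = (a, b, c) := by
    intro t ht; rw [hO] at ht; exact ht
  obtain ⟨ha, hab, hbc, heq, hc⟩ := hmem
  simp only at ha hab hbc heq hc
  obtain ⟨d, rfl⟩ := Nat.exists_eq_add_of_le hc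
  have hm : m = a ^ 2 + b ^ 2 + d ^ 2 + 3 * a * b * d := by
    nlinarith
  rcases Nat.eq_zero_or_pos d with hd | hd
  · right
    subst hd
    refine ⟨a, b, ha, lt_of_lt_of_le ha hab, by simpa using hm, ?_⟩
    intro a' b' ha' hb' h
    rcases le_total a' b' with hle | hle
    · have := huniq _ (mem_sq ha' hle h)
      simp only [Prod.mk.injEq] at this
      exact Or.inl ⟨this.1, this.2.1⟩
    · have := huniq _ (mem_sq hb' hle (by rw [h]; ring))
      simp only [Prod.mk.injEq] at this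
      exact Or.inr ⟨this.2.1, this.1⟩
  · left
    -- use the triples with `d` exchanged with `a` or `b`
    have e1 : b = d := by
      rcases le_total a d with hle | hle
      · have := huniq _ (mem_gen (m := m) (d := b) ha hle (by rw [hm]; ring))
        simp only [Prod.mk.injEq] at this
        exact this.2.1.symm
      · have := huniq _ (mem_gen (m := m) (d := b) hd hle (by rw [hm]; ring))
        simp only [Prod.mk.injEq] at this
        omega
    have e2 : a = d := by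
      rcases le_total b d with hle | hle
      · have := huniq _ (mem_gen (m := m) (d := a) (lt_of_lt_of_le ha hab) hle
          (by rw [hm]; ring))
        simp only [Prod.mk.injEq] at this
        omega
      · have := huniq _ (mem_gen (m := m) (d := a) hd hle (by rw [hm]; ring))
        simp only [Prod.mk.injEq] at this
        omega
    subst e1
    subst e2
    exact ⟨a, ha, by rw [hm]; ring⟩

/-- A squarefree number that is neither `1` nor `2` has an odd prime factor. -/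
theorem exists_odd_prime_factor {w : ℕ} (hw : Squarefree w) (h1 : w ≠ 1) (h2 : w ≠ 2) :
    ∃ u : ℕ, u.Prime ∧ u ≠ 2 ∧ u ∣ w := by
  by_contra hcon
  push Not at hcon
  have hw0 : w ≠ 0 := hw.ne_zero
  have hp : ∀ p, p.Prime → p ∣ w → p = 2 := by
    intro p hp hd
    by_contra h
    exact hcon p hp h hd
  have := Nat.eq_prime_pow_of_unique_prime_dvd hw0 (p := 2) (fun {d} hd hdw => hp d hd hdw)
  set k := w.primeFactorsList.length
  rcases Nat.lt_or_ge k 2 with hk | hk
  · interval_cases k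
    · exact h1 (by simpa using this)
    · exact h2 (by simpa using this)
  · have h4 : 2 * 2 ∣ w := by
      rw [this]
      exact Dvd.dvd.trans (by norm_num) (pow_dvd_pow 2 hk)
    have := hw 2 h4
    simp at this

/-- If `m` is a sum of two positive squares in exactly one way, its squarefree part is `1`, `2`, a
prime or twice a prime. -/
theorem shape_of_unique {m a b : ℕ} (ha : 0 < a) (hb : 0 < b) (hm : m = a ^ 2 + b ^ 2)
    (huniq : ∀ a' b' : ℕ, 0 < a' → 0 < b' → m = a' ^ 2 + b' ^ 2 →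
      (a' = a ∧ b' = b) ∨ (a' = b ∧ b' = a)) :
    ∃ G w : ℕ, 0 < G ∧ m = G ^ 2 * w ∧
      (w = 1 ∨ w = 2 ∨ w.Prime ∨ ∃ p : ℕ, p.Prime ∧ w = 2 * p) := by
  have hmpos : 0 < m := by rw [hm]; positivity
  obtain ⟨w, G, hw0, hG0, hGw, hsq⟩ := Nat.sq_mul_squarefree_of_pos hmpos
  refine ⟨G, w, hG0, hGw.symm, ?_⟩
  by_contra hcon
  push Not at hcon
  obtain ⟨c1, c2, c3, c4⟩ := hcon
  obtain ⟨u, hu, hu2, v, hv⟩ := exists_odd_prime_factor hsq c1 c2
  have hv1 : v ≠ 1 := by rintro rfl; exact c3 (by rw [hv, mul_one]; exact hu)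
  have hv2 : v ≠ 2 := by rintro rfl; exact c4 u hu (by rw [hv, mul_comm])
  have hv0 : v ≠ 0 := by rintro rfl; omega
  have hvs : Squarefree v := hsq.squarefree_of_dvd ⟨u, by rw [hv, mul_comm]⟩
  -- `-1` is a square modulo `w`
  have hneg : IsSquare (-1 : ZMod w) := by
    rw [ZMod.isSquare_neg_one_iff_forall_mem_primeFactors_mod_four_ne_three hsq]
    intro q hq hq4
    have hqp : q.Prime := Nat.prime_of_mem_primeFactors hq
    have : Fact q.Prime := ⟨hqp⟩
    have hqw : q ∣ w := Nat.dvd_of_mem_primeFactors hq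
    have hqm : q ∈ m.primeFactors := by
      rw [Nat.mem_primeFactors]
      exact ⟨hqp, hqw.trans ⟨G ^ 2, by rw [← hGw, mul_comm]⟩, hmpos.ne'⟩
    have hev := Nat.eq_sq_add_sq_iff.mp ⟨a, b, hm⟩ q hqm hq4
    rw [← hGw, padicValNat.mul (by positivity) hw0.ne', padicValNat.pow] at hev
    have h1 : padicValNat q w = 1 := by
      have hle : w.factorization q ≤ 1 := hsq.natFactorization_le_one q
      have hge : 1 ≤ w.factorization q := (hqp.dvd_iff_one_le_factorization hw0.ne').mp hqw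
      rw [← Nat.factorization_def w hqp]
      omega
    rw [h1] at hev
    rw [Nat.even_iff] at hev
    omega
  obtain ⟨c, d, hcd⟩ := Nat.eq_sq_add_sq_of_isSquare_mod_neg_one
    (ZMod.isSquare_neg_one_of_dvd ⟨v, hv⟩ hneg)
  obtain ⟨e, f, hef⟩ := Nat.eq_sq_add_sq_of_isSquare_mod_neg_one
    (ZMod.isSquare_neg_one_of_dvd ⟨u, by rw [hv, mul_comm]⟩ hneg)
  -- positivity and inequalities
  have sqf : ∀ z : ℕ, z ^ 2 ∣ v → z = 1 := by
    intro z hz
    have := hvs z (by rw [← sq]; exact hz)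
    simpa using this
  have hnp : ∀ z : ℕ, u ≠ z ^ 2 := by
    intro z hz
    rw [hz] at hu
    exact Nat.Prime.not_prime_pow (le_refl 2) hu
  have hc0 : 0 < c := by
    rcases Nat.eq_zero_or_pos c with h | h
    · subst h; exact absurd (by simpa using hcd) (hnp d)
    · exact h
  have hd0 : 0 < d := by
    rcases Nat.eq_zero_or_pos d with h | h
    · subst h; exact absurd (by simpa using hcd) (hnp c)
    · exact h
  have hcd' : c ≠ d := by
    rintro rfl
    have h2 : 2 ∣ u := ⟨c ^ 2, by rw [hcd]; ring⟩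
    exact hu2 ((Nat.prime_dvd_prime_iff_eq Nat.prime_two hu).mp h2).symm
  have he0 : 0 < e := by
    rcases Nat.eq_zero_or_pos e with h | h
    · subst h
      have hvf : v = f ^ 2 := by simpa using hef
      have := sqf f ⟨1, by rw [hvf, mul_one]⟩
      subst this; omega
    · exact h
  have hf0 : 0 < f := by
    rcases Nat.eq_zero_or_pos f with h | h
    · subst h
      have hvf : v = e ^ 2 := by simpa using hef
      have := sqf e ⟨1, by rw [hvf, mul_one]⟩
      subst this; omega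
    · exact h
  have hef' : e ≠ f := by
    rintro rfl
    have := sqf e ⟨2, by rw [hef]; ring⟩
    subst this; omega
  -- `w` is not a square
  have hwns : ∀ z : ℕ, w ≠ z ^ 2 := by
    intro z hz
    have := hsq z (by rw [← sq, ← hz])
    have hz1 : z = 1 := by simpa using this
    subst hz1; omega
  have hwz : (w : ℤ) = ((c : ℤ) ^ 2 + (d : ℤ) ^ 2) * ((e : ℤ) ^ 2 + (f : ℤ) ^ 2) := by
    rw [hv]; push_cast [hcd, hef]; ring
  set X1 : ℕ := ((c : ℤ) * e - d * f).natAbs with hX1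
  set Y2 : ℕ := ((c : ℤ) * f - d * e).natAbs with hY2
  have hX1s : ((X1 : ℕ) : ℤ) ^ 2 = ((c : ℤ) * e - d * f) ^ 2 := by
    rw [hX1]; exact Int.natAbs_sq _
  have hY2s : ((Y2 : ℕ) : ℤ) ^ 2 = ((c : ℤ) * f - d * e) ^ 2 := by
    rw [hY2]; exact Int.natAbs_sq _
  have r1 : w = X1 ^ 2 + (c * f + d * e) ^ 2 := by
    have : (w : ℤ) = (X1 : ℤ) ^ 2 + ((c : ℤ) * f + d * e) ^ 2 := by
      rw [hX1s, hwz]; ring
    exact_mod_cast this
  have r2 : w = (c * e + d * f) ^ 2 + Y2 ^ 2 := by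
    have : (w : ℤ) = ((c : ℤ) * e + d * f) ^ 2 + (Y2 : ℤ) ^ 2 := by
      rw [hY2s, hwz]; ring
    exact_mod_cast this
  have hX1p : 0 < X1 := by
    rcases Nat.eq_zero_or_pos X1 with h | h
    · exact absurd (by rw [r1, h]; ring : w = (c * f + d * e) ^ 2) (hwns _)
    · exact h
  have hY2p : 0 < Y2 := by
    rcases Nat.eq_zero_or_pos Y2 with h | h
    · exact absurd (by rw [r2, h]; ring : w = (c * e + d * f) ^ 2) (hwns _)
    · exact h
  have hs1 : 0 < c * f + d * e := by positivity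
  have hs2 : 0 < c * e + d * f := by positivity
  have m1 : m = (G * X1) ^ 2 + (G * (c * f + d * e)) ^ 2 := by
    rw [← hGw, r1]; ring
  have m2 : m = (G * (c * e + d * f)) ^ 2 + (G * Y2) ^ 2 := by
    rw [← hGw, r2]; ring
  have u1 := huniq _ _ (Nat.mul_pos hG0 hX1p) (Nat.mul_pos hG0 hs1) m1
  have u2 := huniq _ _ (Nat.mul_pos hG0 hs2) (Nat.mul_pos hG0 hY2p) m2
  -- the two representations differ
  have hne1 : c * f + d * e ≠ c * e + d * f := by
    intro h
    have hz : ((c : ℤ) - d) * ((f : ℤ) - e) = 0 := by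
      have : (c : ℤ) * f + d * e = c * e + d * f := by exact_mod_cast h
      linear_combination this
    rcases mul_eq_zero.mp hz with h | h
    · exact hcd' (by omega)
    · exact hef' (by omega)
  have hne2 : c * f + d * e ≠ Y2 := by
    intro h
    have hz : ((c : ℤ) * f + d * e) ^ 2 = ((c : ℤ) * f - d * e) ^ 2 := by
      rw [← hY2s, ← h]; push_cast; ring
    have h4 : 4 * ((c : ℤ) * f * (d * e)) = 0 := by linear_combination hz
    have h5 : 0 < (c : ℤ) * f * (d * e) := by positivity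
    omega
  have k1 : G * (c * f + d * e) ≠ G * (c * e + d * f) := by
    intro h; exact hne1 (Nat.eq_of_mul_eq_mul_left hG0 h)
  have k2 : G * (c * f + d * e) ≠ G * Y2 := by
    intro h; exact hne2 (Nat.eq_of_mul_eq_mul_left hG0 h)
  rcases u1 with ⟨p1, p2⟩ | ⟨p1, p2⟩ <;> rcases u2 with ⟨p3, p4⟩ | ⟨p3, p4⟩
  · exact k2 (p2.trans p4.symm)
  · exact k1 (p2.trans p3.symm)
  · exact k1 (p2.trans p3.symm)
  · exact k2 (p2.trans p4.symm)

/-! ### Counting -/

/-- Chebyshev's bound in the form `π(y) ≤ C y / log y` for all real `y ≥ 2`. -/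
theorem chebyshev : ∃ C : ℝ, 0 < C ∧ ∀ y : ℝ, 2 ≤ y →
    (Nat.primeCounting ⌊y⌋₊ : ℝ) ≤ C * (y / Real.log y) := by
  have h := Chebyshev.eventually_primeCounting_le (ε := 1) one_pos
  rw [Filter.eventually_atTop] at h
  obtain ⟨Y, hY⟩ := h
  refine ⟨max (Real.log 4 + 1) (Real.log (max Y 2)), ?_, ?_⟩
  · have : 0 < Real.log 4 := Real.log_pos (by norm_num)
    exact lt_of_lt_of_le (by linarith) (le_max_left _ _)
  · intro y hy
    have hlog : 0 < Real.log y := Real.log_pos (by linarith)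
    have hq : 0 ≤ y / Real.log y := by positivity
    rcases le_total Y y with h | h
    · calc (Nat.primeCounting ⌊y⌋₊ : ℝ) ≤ (Real.log 4 + 1) * y / Real.log y := hY y h
        _ = (Real.log 4 + 1) * (y / Real.log y) := by ring
        _ ≤ _ := mul_le_mul_of_nonneg_right (le_max_left _ _) hq
    · have h1 : (Nat.primeCounting ⌊y⌋₊ : ℝ) ≤ y := by
        have : Nat.primeCounting ⌊y⌋₊ ≤ ⌊y⌋₊ := by
          rw [Nat.primeCounting, Nat.primeCounting', Nat.count_eq_card_filter_range]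
          have hsub : (Finset.range (⌊y⌋₊ + 1)).filter Nat.Prime ⊆ Finset.Icc 1 ⌊y⌋₊ := by
            intro p hp
            rw [Finset.mem_filter, Finset.mem_range] at hp
            rw [Finset.mem_Icc]
            exact ⟨hp.2.one_le, by omega⟩
          simpa using Finset.card_le_card hsub
        calc (Nat.primeCounting ⌊y⌋₊ : ℝ) ≤ (⌊y⌋₊ : ℝ) := by exact_mod_cast this
          _ ≤ y := Nat.floor_le (by linarith)
      have h2 : Real.log y ≤ Real.log (max Y 2) :=
        Real.log_le_log (by linarith) (h.trans (le_max_left _ _))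
      calc (Nat.primeCounting ⌊y⌋₊ : ℝ) ≤ y := h1
        _ = Real.log y * (y / Real.log y) := by field_simp
        _ ≤ _ := mul_le_mul_of_nonneg_right (h2.trans (le_max_right _ _)) hq

/-- The numbers `w ≤ y` that are `1`, `2`, prime or twice a prime. -/
noncomputable def shapes (y : ℝ) : Finset ℕ :=
  ({1, 2} ∪ (Finset.range (⌊y⌋₊ + 1)).filter Nat.Prime) ∪
    ((Finset.range (⌊y⌋₊ + 1)).filter Nat.Prime).image (fun p => 2 * p)

theorem card_shapes (y : ℝ) :
    ((shapes y).card : ℝ) ≤ 2 + 2 * (Nat.primeCounting ⌊y⌋₊ : ℝ) := by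
  have hpc : ((Finset.range (⌊y⌋₊ + 1)).filter Nat.Prime).card = Nat.primeCounting ⌊y⌋₊ := by
    rw [Nat.primeCounting, Nat.primeCounting', Nat.count_eq_card_filter_range]
  have h : (shapes y).card ≤ 2 + 2 * Nat.primeCounting ⌊y⌋₊ := by
    unfold shapes
    calc _ ≤ ({1, 2} ∪ (Finset.range (⌊y⌋₊ + 1)).filter Nat.Prime : Finset ℕ).card +
          (((Finset.range (⌊y⌋₊ + 1)).filter Nat.Prime).image (fun p => 2 * p)).card :=
          Finset.card_union_le _ _
      _ ≤ (({1, 2} : Finset ℕ).card + ((Finset.range (⌊y⌋₊ + 1)).filter Nat.Prime).card) +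
          ((Finset.range (⌊y⌋₊ + 1)).filter Nat.Prime).card :=
          Nat.add_le_add (Finset.card_union_le _ _) Finset.card_image_le
      _ = 2 + 2 * Nat.primeCounting ⌊y⌋₊ := by
          rw [hpc]
          have : ({1, 2} : Finset ℕ).card = 2 := by decide
          rw [this]; ring
  exact_mod_cast h

theorem mem_shapes {y : ℝ} {w : ℕ} (hw : (w : ℝ) ≤ y)
    (h : w = 1 ∨ w = 2 ∨ w.Prime ∨ ∃ p : ℕ, p.Prime ∧ w = 2 * p) : w ∈ shapes y := by
  have hfl : w ≤ ⌊y⌋₊ := Nat.le_floor hw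
  unfold shapes
  simp only [Finset.mem_union, Finset.mem_insert, Finset.mem_singleton, Finset.mem_filter,
    Finset.mem_range, Finset.mem_image]
  rcases h with h | h | h | ⟨p, hp, h⟩
  · exact Or.inl (Or.inl (Or.inl h))
  · exact Or.inl (Or.inl (Or.inr h))
  · exact Or.inl (Or.inr ⟨by omega, h⟩)
  · exact Or.inr ⟨p, ⟨by omega, hp⟩, h.symm⟩

/-- A finite set containing the members of `U` up to `x`. -/
noncomputable def cover (x : ℝ) : Finset ℕ :=
  ((Finset.range (⌊√x⌋₊ + 1)).image (fun a => 3 * a ^ 3 + 3 * a ^ 2)) ∪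
    (Finset.Icc 1 ⌊√x⌋₊).biUnion (fun G => (shapes (x / (G : ℝ) ^ 2)).image (fun w => G ^ 2 * w))

theorem subset_cover (x : ℝ) : {m : ℕ | m ∈ U ∧ (m : ℝ) ≤ x} ⊆ (cover x : Set ℕ) := by
  rintro m ⟨hm, hmx⟩
  have hsqrt : ∀ G : ℕ, (G : ℝ) ^ 2 ≤ x → G ≤ ⌊√x⌋₊ := by
    intro G hG
    exact Nat.le_floor (Real.le_sqrt_of_sq_le hG)
  simp only [cover, Finset.coe_union, Finset.coe_image, Set.mem_union, Finset.coe_biUnion,
    Set.mem_iUnion, Set.mem_image, Finset.mem_coe, Finset.mem_range, Finset.mem_Icc]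
  rcases structure_of_mem hm with ⟨a, ha, h⟩ | ⟨a, b, ha, hb, hab, huniq⟩
  · left
    refine ⟨a, ?_, h.symm⟩
    have : (a : ℝ) ^ 2 ≤ x := by
      refine le_trans ?_ hmx
      rw [h]
      push_cast
      have : (0 : ℝ) ≤ (a : ℝ) ^ 3 := by positivity
      have : (0 : ℝ) ≤ (a : ℝ) ^ 2 := by positivity
      linarith
    have := hsqrt a this
    omega
  · right
    obtain ⟨G, w, hG, hGw, hshape⟩ := shape_of_unique ha hb hab huniq
    have hw1 : 1 ≤ w := by
      rcases Nat.eq_zero_or_pos w with h | h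
      · subst h
        have : 1 < m := hm.1
        omega
      · exact h
    have hGr : (0 : ℝ) < (G : ℝ) ^ 2 := by
      have : (0 : ℝ) < G := by exact_mod_cast hG
      positivity
    have hmr : (m : ℝ) = (G : ℝ) ^ 2 * w := by rw [hGw]; push_cast; ring
    refine ⟨G, ⟨hG, hsqrt G ?_⟩, w, mem_shapes ?_ hshape, hGw.symm⟩
    · have : (1 : ℝ) ≤ w := by exact_mod_cast hw1
      nlinarith
    · rw [le_div_iff₀ hGr]
      linarith [mul_comm (w : ℝ) ((G : ℝ) ^ 2)]

theorem card_cover (x : ℝ) :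
    ((cover x).card : ℝ) ≤ (⌊√x⌋₊ + 1) + ∑ G ∈ Finset.Icc 1 ⌊√x⌋₊,
      (2 + 2 * (Nat.primeCounting ⌊x / (G : ℝ) ^ 2⌋₊ : ℝ)) := by
  have h1 : (cover x).card ≤ (⌊√x⌋₊ + 1) +
      ∑ G ∈ Finset.Icc 1 ⌊√x⌋₊, (shapes (x / (G : ℝ) ^ 2)).card := by
    unfold cover
    refine (Finset.card_union_le _ _).trans (Nat.add_le_add ?_ ?_)
    · exact Finset.card_image_le.trans (by simp)
    · exact Finset.card_biUnion_le.trans (Finset.sum_le_sum fun G _ => Finset.card_image_le)
  have h2 : ((cover x).card : ℝ) ≤ (⌊√x⌋₊ + 1) +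
      ∑ G ∈ Finset.Icc 1 ⌊√x⌋₊, ((shapes (x / (G : ℝ) ^ 2)).card : ℝ) := by exact_mod_cast h1
  refine h2.trans (add_le_add le_rfl (Finset.sum_le_sum fun G _ => card_shapes _))

/-- The contribution of one `G`. -/
theorem term_bound {C : ℝ} (hC : 0 < C) (hcheb : ∀ y : ℝ, 2 ≤ y →
    (Nat.primeCounting ⌊y⌋₊ : ℝ) ≤ C * (y / Real.log y)) {x : ℝ} (hx : 2 ≤ x) {G : ℕ}
    (hG : 1 ≤ G) :
    (Nat.primeCounting ⌊x / (G : ℝ) ^ 2⌋₊ : ℝ)
      ≤ 8 * C * (x / Real.log x) * (1 / (G : ℝ) ^ (3 / 2 : ℝ)) := by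
  have hG1 : (1 : ℝ) ≤ G := by exact_mod_cast hG
  have hG0 : (0 : ℝ) < G := by linarith
  have hlogx : 0 < Real.log x := Real.log_pos (by linarith)
  rcases lt_or_ge (x / (G : ℝ) ^ 2) 2 with hy | hy
  · have h0 : ⌊x / (G : ℝ) ^ 2⌋₊ < 2 := by
      rw [Nat.floor_lt (by positivity)]
      exact_mod_cast hy
    have : Nat.primeCounting ⌊x / (G : ℝ) ^ 2⌋₊ = 0 := by
      interval_cases ⌊x / (G : ℝ) ^ 2⌋₊ <;> decide
    rw [this]
    simp only [Nat.cast_zero]
    positivity
  · set y := x / (G : ℝ) ^ 2 with hydef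
    have hlogy : 0 < Real.log y := Real.log_pos (by linarith)
    have hlog2 : Real.log 2 ≤ Real.log y := Real.log_le_log (by norm_num) hy
    have hlog2' : (0.69 : ℝ) < Real.log 2 := by
      have := Real.log_two_gt_d9
      linarith
    have hxy : x = y * (G : ℝ) ^ 2 := by rw [hydef]; field_simp
    have hsq : (0 : ℝ) ≤ √(G : ℝ) := Real.sqrt_nonneg _
    have hsq1 : (1 : ℝ) ≤ √(G : ℝ) := by
      rw [show (1 : ℝ) = √1 by simp]
      exact Real.sqrt_le_sqrt hG1
    have hlogG : Real.log G ≤ 2 * √(G : ℝ) := by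
      have h1 : Real.log (√(G : ℝ)) ≤ √(G : ℝ) - 1 := Real.log_le_sub_one_of_pos (by positivity)
      have h2 : Real.log (√(G : ℝ)) = Real.log G / 2 := Real.log_sqrt hG0.le
      linarith
    have hlx : Real.log x = Real.log y + 2 * Real.log G := by
      rw [hxy, Real.log_mul (by positivity) (by positivity), Real.log_pow]
      push_cast; ring
    have hle : Real.log x ≤ 8 * √(G : ℝ) * Real.log y := by
      have h3 : 2 * Real.log G ≤ 7 * √(G : ℝ) * Real.log y := by
        have : 4 * √(G : ℝ) ≤ 7 * √(G : ℝ) * Real.log y := by nlinarith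
        linarith
      have h4 : Real.log y ≤ √(G : ℝ) * Real.log y := by nlinarith
      linarith
    have hGpow : (G : ℝ) ^ (3 / 2 : ℝ) = (G : ℝ) ^ 2 / √(G : ℝ) := by
      rw [Real.sqrt_eq_rpow, ← Real.rpow_natCast, ← Real.rpow_sub hG0]
      norm_num
    calc (Nat.primeCounting ⌊y⌋₊ : ℝ) ≤ C * (y / Real.log y) := hcheb y hy
      _ ≤ C * (y * (8 * √(G : ℝ)) / Real.log x) := by
          refine mul_le_mul_of_nonneg_left ?_ hC.le
          rw [div_le_div_iff₀ hlogy hlogx]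
          have : 0 ≤ y := by linarith
          nlinarith
      _ = 8 * C * (x / Real.log x) * (1 / (G : ℝ) ^ (3 / 2 : ℝ)) := by
          rw [hGpow, hydef]
          have : √(G : ℝ) ≠ 0 := by positivity
          field_simp

/-- **Q2.** `U(x) = O(x / log x)`, where `U(x)` is the number of integers `m ≤ x`, `m > 1`, with exactly
one minimal `m`-Markoff triple. -/
theorem result :
    (fun x : ℝ => ({m : ℕ | m ∈ U ∧ (m : ℝ) ≤ x}.ncard : ℝ)) =O[atTop]
      fun x : ℝ => x / Real.log x := by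
  obtain ⟨C, hC, hcheb⟩ := chebyshev
  have hsum : Summable fun G : ℕ => 1 / (G : ℝ) ^ (3 / 2 : ℝ) :=
    Real.summable_one_div_nat_rpow.mpr (by norm_num)
  set S := ∑' G : ℕ, 1 / (G : ℝ) ^ (3 / 2 : ℝ) with hS
  have hS0 : 0 ≤ S := tsum_nonneg fun G => by positivity
  refine IsBigO.of_bound (16 * C * S + 12) ?_
  filter_upwards [eventually_ge_atTop (2 : ℝ)] with x hx
  have hlogx : 0 < Real.log x := Real.log_pos (by linarith)
  have hq : 0 ≤ x / Real.log x := by positivity
  rw [Real.norm_of_nonneg (Nat.cast_nonneg _), Real.norm_of_nonneg hq]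
  have h1 : ({m : ℕ | m ∈ U ∧ (m : ℝ) ≤ x}.ncard : ℝ) ≤ ((cover x).card : ℝ) := by
    have := Set.ncard_le_ncard (subset_cover x) (Finset.finite_toSet _)
    rw [Set.ncard_coe_finset] at this
    exact_mod_cast this
  refine h1.trans ((card_cover x).trans ?_)
  have hsq : (⌊√x⌋₊ : ℝ) ≤ √x := Nat.floor_le (Real.sqrt_nonneg _)
  have hsq1 : (1 : ℝ) ≤ √x := by
    rw [show (1 : ℝ) = √1 by simp]
    exact Real.sqrt_le_sqrt (by linarith)
  have hsqle : √x ≤ 2 * (x / Real.log x) := by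
    have h3 : Real.log x ≤ 2 * √x := by
      have h1 : Real.log (√x) ≤ √x - 1 := Real.log_le_sub_one_of_pos (by linarith)
      have h2 : Real.log (√x) = Real.log x / 2 := Real.log_sqrt (by linarith)
      linarith
    rw [← mul_div_assoc, le_div_iff₀ hlogx]
    have h4 : √x * √x = x := Real.mul_self_sqrt (by linarith)
    nlinarith
  have h2 : ∑ G ∈ Finset.Icc 1 ⌊√x⌋₊, (2 + 2 * (Nat.primeCounting ⌊x / (G : ℝ) ^ 2⌋₊ : ℝ))
      ≤ 2 * √x + 16 * C * (x / Real.log x) * S := by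
    rw [Finset.sum_add_distrib, Finset.sum_const, Nat.card_Icc, ← Finset.mul_sum]
    refine add_le_add ?_ ?_
    · simp only [Nat.add_sub_cancel, nsmul_eq_mul]
      linarith
    · have h5 : ∑ G ∈ Finset.Icc 1 ⌊√x⌋₊, (Nat.primeCounting ⌊x / (G : ℝ) ^ 2⌋₊ : ℝ)
          ≤ ∑ G ∈ Finset.Icc 1 ⌊√x⌋₊,
            8 * C * (x / Real.log x) * (1 / (G : ℝ) ^ (3 / 2 : ℝ)) :=
        Finset.sum_le_sum fun G hG => term_bound hC hcheb hx (Finset.mem_Icc.mp hG).1
      have h6 : ∑ G ∈ Finset.Icc 1 ⌊√x⌋₊, 1 / (G : ℝ) ^ (3 / 2 : ℝ) ≤ S :=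
        hsum.sum_le_tsum _ fun G _ => by positivity
      rw [← Finset.mul_sum] at h5
      have h7 : 0 ≤ 8 * C * (x / Real.log x) := by positivity
      have h8 := mul_le_mul_of_nonneg_left h6 h7
      linarith
  have h9 : 16 * C * (x / Real.log x) * S = 16 * C * S * (x / Real.log x) := by ring
  linarith

end Pool.Agent.Results.MP_3400ab_nt.UpperBoundForU
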